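import Pool.Agent.Z702.Defs

/-!
# Z702 LQ: local points for squares
-/

set_option autoImplicit false

namespace Pool.Agent.Z864.LQ

open Pool.Agent.Z702

lemma hens (p : ℕ) [hp : Fact p.Prime] (w : ℤ_[p]) : IsSquare (1 + 4 * p * w) := by
  let F : Polynomial ℤ_[p] := Polynomial.X ^ 2 - Polynomial.C (1 + 4 * p * w)
  have h1 : F.aeval (1 : ℤ_[p]) = -(4 * p * w) := by
    simp [F]
  have h2 : F.derivative.aeval (1 : ℤ_[p]) = 2 := by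
    simp [F, one_add_one_eq_two]
  have h4 : 0 < ‖(4 : ℤ_[p])‖ := norm_pos_iff.2 (by norm_num)
  obtain ⟨z, hz, -⟩ := hensels_lemma (p := p) (R := ℤ_[p]) (F := F) (a := 1) (by
    rw [h1, h2, norm_neg, norm_mul, norm_mul]
    have h5 : ‖(2 : ℤ_[p])‖ ^ 2 = ‖(4 : ℤ_[p])‖ := by
      rw [← norm_pow]
      norm_num
    rw [h5]
    have h6 : ‖(p : ℤ_[p])‖ < 1 := by
      rw [PadicInt.norm_p]
      exact inv_lt_one_of_one_lt₀ (by exact_mod_cast hp.out.one_lt)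
    have h7 : ‖w‖ ≤ 1 := PadicInt.norm_le_one w
    calc ‖(4 : ℤ_[p])‖ * ‖(p : ℤ_[p])‖ * ‖w‖ ≤ ‖(4 : ℤ_[p])‖ * ‖(p : ℤ_[p])‖ * 1 := by
          gcongr
      _ < ‖(4 : ℤ_[p])‖ * 1 := by
          rw [mul_one]
          exact mul_lt_mul_of_pos_left h6 h4
      _ = ‖(4 : ℤ_[p])‖ := mul_one _)
  refine ⟨z, ?_⟩
  have : F.aeval z = z ^ 2 - (1 + 4 * p * w) := by simp [F]
  rw [this] at hz
  rw [← pow_two]
  exact (sub_eq_zero.1 hz).symm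

/-- a point whose abscissa is a square -/
lemma pt_sq (p : ℕ) [hp : Fact p.Prime] (a c : ℤ) : ∃ N Y : ℚ_[p], N ≠ 0 ∧
    Y ^ 2 = (N ^ 2) ^ 3 - 2 * (a : ℚ_[p]) * (N ^ 2) ^ 2 + (c : ℚ_[p]) * N ^ 2 := by
  obtain ⟨z, hz⟩ := hens p (-(2 * a * p) + 4 * c * p ^ 3 : ℤ_[p])
  have hp0 : (p : ℚ_[p]) ≠ 0 := by exact_mod_cast hp.out.ne_zero
  have h1 := congrArg (fun w : ℤ_[p] => (w : ℚ_[p])) hz
  have hc4 : ((4 : ℤ_[p]) : ℚ_[p]) = 4 := rfl
  have hc2 : ((2 : ℤ_[p]) : ℚ_[p]) = 2 := rfl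
  push_cast at h1
  rw [hc4, hc2] at h1
  refine ⟨1 / (2 * p), (1 / (2 * p)) ^ 3 * z, one_div_ne_zero (mul_ne_zero two_ne_zero hp0), ?_⟩
  have h2 : ((1 / (2 * (p : ℚ_[p]))) ^ 3 * (z : ℚ_[p])) ^ 2 =
      (1 / (2 * (p : ℚ_[p]))) ^ 6 * ((z : ℚ_[p]) * z) := by ring
  rw [h2, ← h1]
  field_simp
  ring

/-- **LQ** -/
theorem t_LQ : S_LQ := by
  intro a b d hb hab hd
  refine ⟨fun p hp hsq => ?_, fun hd0 => ?_⟩
  · have hdK : (d : ℚ_[p]) ≠ 0 := by exact_mod_cast hd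
    obtain ⟨N, Y, hN, hY⟩ := pt_sq p a (a ^ 2 - 4 * b)
    push_cast at hY
    rcases hsq with ⟨e, he⟩ | ⟨f, hf⟩
    · have he0 : e ≠ 0 := by
        rintro rfl
        apply hdK
        rw [he, mul_zero]
      refine ⟨N ^ 2, Y, N / e, pow_ne_zero 2 hN, hY, ?_⟩
      rw [he]
      field_simp
    · have hc : ((a : ℚ_[p]) ^ 2 - 4 * b) ≠ 0 := by exact_mod_cast hab
      set c : ℚ_[p] := (a : ℚ_[p]) ^ 2 - 4 * b with hcdef
      refine ⟨c / N ^ 2, -(c * Y / N ^ 4), f / (d * N), div_ne_zero hc (pow_ne_zero 2 hN), ?_, ?_⟩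
      · have h1 : (-(c * Y / N ^ 4)) ^ 2 = c ^ 2 * Y ^ 2 / N ^ 8 := by
          field_simp
        rw [h1, hY]
        field_simp
        ring
      · rw [div_pow, pow_two f, ← hf]
        field_simp
  · have hdR : (0 : ℝ) < d := by exact_mod_cast hd0
    set c : ℝ := (a : ℝ) ^ 2 - 4 * b with hcdef
    set X : ℝ := 1 + |2 * (a : ℝ)| + |c| with hX
    have a1 := le_abs_self (2 * (a : ℝ))
    have a2 := neg_abs_le c
    have a3 := abs_nonneg (2 * (a : ℝ))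
    have a4 := abs_nonneg c
    have hX1 : 1 ≤ X := by linarith
    have h1 : 0 < X ^ 2 - 2 * a * X + c := by nlinarith
    have h2 : 0 < X ^ 3 - 2 * a * X ^ 2 + c * X := by
      have : X ^ 3 - 2 * a * X ^ 2 + c * X = X * (X ^ 2 - 2 * a * X + c) := by ring
      rw [this]
      positivity
    refine ⟨X, Real.sqrt (X ^ 3 - 2 * a * X ^ 2 + c * X), Real.sqrt (X / d), by linarith,
      Real.sq_sqrt h2.le, ?_⟩
    rw [Real.sq_sqrt (by positivity)]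
    field_simp

end Pool.Agent.Z864.LQ
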